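import Pool.Agent.FHQ.StmtsT

/-!
# Squad FHQ, LDC: closure properties of the definable families
-/

set_option autoImplicit false

noncomputable section

namespace Pool.Agent.FHQ.H51

open Polynomial

theorem LD_congr {n : ℕ} {S T : Fam n} (h : LD n S)
    (e : ∀ (p : ℕ) (K : Type) [Field K] (A : AcF p K) (x : Fin n → K), S p K A x ↔ T p K A x) :
    LD n T := by
  have : S = T := by
    funext p K _ A x
    exact propext (e p K A x)
  exact this ▸ h

theorem ren {n : ℕ} {S : Fam n} (h : LD n S) :
    ∀ (m : ℕ) (σ : Fin n → Fin m), LD m (fun p K _ A x => S p K A (fun i => x (σ i))) := by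
  induction h with
  | eq P =>
    intro m σ
    refine LD_congr (LD.eq (MvPolynomial.rename σ P)) ?_
    intro p K _ A x
    rw [MvPolynomial.aeval_rename]
    rfl
  | rv P Q =>
    intro m σ
    refine LD_congr (LD.rv (MvPolynomial.rename σ P) (MvPolynomial.rename σ Q)) ?_
    intro p K _ A x
    rw [MvPolynomial.aeval_rename, MvPolynomial.aeval_rename]
    rfl
  | not _ ih =>
    intro m σ
    exact LD.not (ih m σ)
  | and _ _ ih1 ih2 =>
    intro m σ
    exact LD.and (ih1 m σ) (ih2 m σ)
  | @ex n S _ ih =>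
    intro m σ
    refine LD_congr (LD.ex (ih (m + 1) (Fin.cases 0 (fun i => (σ i).succ)))) ?_
    intro p K _ A x
    refine exists_congr fun a => ?_
    have : (fun i => (Fin.cons a x : Fin (m + 1) → K)
        ((Fin.cases 0 (fun i => (σ i).succ) : Fin (n + 1) → Fin (m + 1)) i)) =
        (Fin.cons a (fun i => x (σ i)) : Fin (n + 1) → K) := by
      funext i
      refine Fin.cases ?_ (fun i => ?_) i
      · simp
      · simp
    rw [this]

theorem or_ {n : ℕ} {S T : Fam n} (hS : LD n S) (hT : LD n T) :
    LD n (fun p K _ A x => S p K A x ∨ T p K A x) := by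
  refine LD_congr (LD.not (LD.and (LD.not hS) (LD.not hT))) ?_
  intro p K _ A x
  tauto

theorem true_ (n : ℕ) : LD n (fun _ _ _ _ _ => True) := by
  refine LD_congr (LD.eq (0 : MvPolynomial (Fin n) ℤ)) ?_
  intro p K _ A x
  simp

theorem all_ (n k : ℕ) : ∀ (S : Fin k → Fam n), (∀ i, LD n (S i)) →
    LD n (fun p K _ A x => ∀ i, S i p K A x) := by
  induction k with
  | zero =>
    intro S _
    refine LD_congr (true_ n) ?_
    intro p K _ A x
    exact ⟨fun _ i => i.elim0, fun _ => trivial⟩
  | succ k ih =>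
    intro S hS
    refine LD_congr (LD.and (hS 0) (ih (fun i => S i.succ) (fun i => hS i.succ))) ?_
    intro p K _ A x
    exact (Fin.forall_fin_succ (P := fun i => S i p K A x)).symm

theorem exs (d : ℕ) : ∀ (n : ℕ) (S : Fam (d + n)), LD (d + n) S →
    LD n (fun p K _ A y => ∃ x : Fin d → K, S p K A (Fin.append x y)) := by
  induction d with
  | zero =>
    intro n S hS
    refine LD_congr (ren hS n (Fin.cast (Nat.zero_add n))) ?_
    intro p K _ A y
    constructor
    · intro h
      refine ⟨Fin.elim0, ?_⟩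
      rw [Fin.elim0_append]
      exact h
    · rintro ⟨x, hx⟩
      rw [Fin.append_left_nil x y rfl] at hx
      exact hx
  | succ d ih =>
    intro n S hS
    have h1 := ren hS (d + n + 1) (Fin.cast (Nat.add_right_comm d 1 n))
    refine LD_congr (ih n _ (LD.ex h1)) ?_
    intro p K _ A y
    constructor
    · rintro ⟨x, a, h⟩
      refine ⟨Fin.cons a x, ?_⟩
      rw [Fin.append_cons]
      exact h
    · rintro ⟨x, h⟩
      refine ⟨Fin.tail x, x 0, ?_⟩
      rw [← Fin.cons_self_tail x, Fin.append_cons] at h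
      exact h

theorem ldc : LdcStmt :=
  ⟨fun _ m _ h σ => ren h m σ, fun _ _ _ hS hT => or_ hS hT, all_, exs⟩

end Pool.Agent.FHQ.H51
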