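import Pool.Agent.FHQ.StmtsW

/-!
# Squad FHQ, RED: reduction of the monomial functions on `ZZ h`
-/

set_option autoImplicit false

open scoped BigOperators

noncomputable section

namespace Pool.Agent.FHQ.H51

open Polynomial

variable {k : Type} [Field k]

theorem ev_eq {d e : ℕ} {h : k[X][X]} (H : Mh d e h) (x t : k) :
    ev x t h = ∑ j ∈ Finset.range (d + 1), (h.coeff j).eval x * t ^ j := by
  unfold ev
  rw [eval₂_eq_sum_range, H.deg]
  rfl

theorem coeff_eval {d e : ℕ} {h : k[X][X]} (H : Mh d e h) (x : k) (j : ℕ) :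
    (h.coeff j).eval x = ∑ m ∈ Finset.range (e + 1), (h.coeff j).coeff m * x ^ m :=
  eval_eq_sum_range' (Nat.lt_succ_of_le (H.cof j)) x

theorem coeff_d {d e : ℕ} {h : k[X][X]} (H : Mh d e h) : h.coeff d = 1 := by
  have := H.mon.coeff_natDegree
  rwa [H.deg] at this

/-- the rule for `t ^ d` -/
theorem t_rule {d e : ℕ} {h : k[X][X]} (H : Mh d e h) {x t : k} (ht : ev x t h = 0) :
    t ^ d = -∑ j ∈ Finset.range d, (h.coeff j).eval x * t ^ j := by
  rw [ev_eq H, Finset.sum_range_succ, coeff_d H, eval_one, one_mul] at ht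
  linear_combination ht

/-- the rule for `z ^ (d - 1)` -/
theorem z_rule {d' e : ℕ} {h : k[X][X]} (H : Mh (d' + 1) e h) {x t z : k} (ht : ev x t h = 0)
    (hz : ev x z h = 0) (hne : z ≠ t) :
    z ^ d' = -(∑ i ∈ Finset.range d', z ^ i * t ^ (d' - i) +
      ∑ j ∈ Finset.range (d' + 1), (h.coeff j).eval x *
        ∑ i ∈ Finset.range j, z ^ i * t ^ (j - 1 - i)) := by
  have h1 : (∑ j ∈ Finset.range (d' + 1 + 1), (h.coeff j).eval x *
      ∑ i ∈ Finset.range j, z ^ i * t ^ (j - 1 - i)) * (z - t) = 0 := by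
    rw [Finset.sum_mul]
    have : ∀ j ∈ Finset.range (d' + 1 + 1), (h.coeff j).eval x *
        (∑ i ∈ Finset.range j, z ^ i * t ^ (j - 1 - i)) * (z - t) =
        (h.coeff j).eval x * z ^ j - (h.coeff j).eval x * t ^ j := by
      intro j _
      rw [mul_assoc, (Commute.all z t).geom_sum₂_mul]
      ring
    rw [Finset.sum_congr rfl this, Finset.sum_sub_distrib, ← ev_eq H, ← ev_eq H, ht, hz, sub_zero]
  have h2 := (mul_eq_zero.1 h1).resolve_right (sub_ne_zero.2 hne)
  rw [Finset.sum_range_succ, coeff_d H, eval_one, one_mul] at h2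
  have h3 : ∑ i ∈ Finset.range (d' + 1), z ^ i * t ^ (d' + 1 - 1 - i) =
      ∑ i ∈ Finset.range d', z ^ i * t ^ (d' - i) + z ^ d' := by
    rw [Finset.sum_range_succ, Nat.add_sub_cancel, Nat.sub_self, pow_zero, mul_one]
  rw [h3] at h2
  linear_combination h2

/-- reduction of the exponent of `z` -/
theorem red_z {d' e : ℕ} (h : k[X][X]) (H : Mh (d' + 1) e h) (w : ℕ) (M : Submodule k (ZZ h → k))
    (hM : ∀ a b c, a + e * (b + c) ≤ w → c < d' → mon (ZZ h) a b c ∈ M) (c : ℕ) :
    ∀ a b, a + e * (b + c) ≤ w → mon (ZZ h) a b c ∈ M := by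
  induction c using Nat.strong_induction_on with
  | _ c ih =>
    intro a b hw
    by_cases hc : c < d'
    · exact hM a b c hw hc
    push Not at hc
    obtain ⟨c', rfl⟩ := Nat.exists_eq_add_of_le hc
    have key : mon (ZZ h) a b (d' + c') =
        -(∑ i ∈ Finset.range d', mon (ZZ h) a (b + (d' - i)) (c' + i) +
          ∑ j ∈ Finset.range (d' + 1), ∑ i ∈ Finset.range j, ∑ m ∈ Finset.range (e + 1),
            ((h.coeff j).coeff m) • mon (ZZ h) (a + m) (b + (j - 1 - i)) (c' + i)) := by
      funext q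
      have hz := z_rule H q.2.1 q.2.2.1 q.2.2.2
      simp only [Pi.neg_apply, Pi.add_apply, Finset.sum_apply, Pi.smul_apply, smul_eq_mul]
      unfold mon
      rw [pow_add _ d' c', hz]
      simp only [coeff_eval H]
      rw [neg_mul, mul_neg, neg_inj, add_mul, mul_add]
      refine congrArg₂ (· + ·) ?_ ?_
      · rw [Finset.sum_mul, Finset.mul_sum]
        refine Finset.sum_congr rfl fun i _ => ?_
        ring
      · rw [Finset.sum_mul, Finset.mul_sum]
        refine Finset.sum_congr rfl fun j _ => ?_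
        rw [Finset.mul_sum, Finset.sum_mul, Finset.mul_sum]
        refine Finset.sum_congr rfl fun i _ => ?_
        rw [Finset.sum_mul, Finset.sum_mul, Finset.mul_sum]
        refine Finset.sum_congr rfl fun m _ => ?_
        ring
    rw [key]
    refine M.neg_mem (M.add_mem (M.sum_mem fun i hi => ?_) (M.sum_mem fun j hj =>
      M.sum_mem fun i hi => M.sum_mem fun m hm => M.smul_mem _ ?_))
    · have hi := Finset.mem_range.1 hi
      refine ih (c' + i) (by omega) a _ ?_
      have : b + (d' - i) + (c' + i) = b + (d' + c') := by omega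
      rw [this]
      exact hw
    · have hj := Finset.mem_range.1 hj
      have hi := Finset.mem_range.1 hi
      have hm := Finset.mem_range.1 hm
      refine ih (c' + i) (by omega) _ _ ?_
      have h1 : b + (j - 1 - i) + (c' + i) + 1 ≤ b + (d' + c') := by omega
      have h2 := Nat.mul_le_mul_left e h1
      rw [Nat.mul_add, Nat.mul_one] at h2
      omega

/-- reduction of the exponent of `t` -/
theorem red_t {d e : ℕ} (h : k[X][X]) (H : Mh d e h) (w : ℕ) (M : Submodule k (ZZ h → k))
    (c : ℕ) (hM : ∀ a b, a + e * (b + c) ≤ w → b < d → mon (ZZ h) a b c ∈ M) (b : ℕ) :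
    ∀ a, a + e * (b + c) ≤ w → mon (ZZ h) a b c ∈ M := by
  induction b using Nat.strong_induction_on with
  | _ b ih =>
    intro a hw
    by_cases hb : b < d
    · exact hM a b hw hb
    push Not at hb
    obtain ⟨b', rfl⟩ := Nat.exists_eq_add_of_le hb
    have key : mon (ZZ h) a (d + b') c =
        -∑ j ∈ Finset.range d, ∑ m ∈ Finset.range (e + 1),
            ((h.coeff j).coeff m) • mon (ZZ h) (a + m) (j + b') c := by
      funext q
      have ht := t_rule H q.2.1
      simp only [Pi.neg_apply, Finset.sum_apply, Pi.smul_apply, smul_eq_mul]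
      unfold mon
      rw [pow_add _ d b', ht]
      simp only [coeff_eval H]
      rw [neg_mul, mul_neg, neg_mul, neg_inj, Finset.sum_mul, Finset.mul_sum, Finset.sum_mul]
      refine Finset.sum_congr rfl fun j _ => ?_
      rw [Finset.sum_mul, Finset.sum_mul, Finset.mul_sum, Finset.sum_mul]
      refine Finset.sum_congr rfl fun m _ => ?_
      ring
    rw [key]
    refine M.neg_mem (M.sum_mem fun j hj => M.sum_mem fun m hm => M.smul_mem _ ?_)
    have hj := Finset.mem_range.1 hj
    have hm := Finset.mem_range.1 hm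
    refine ih (j + b') (by omega) _ ?_
    have h1 : j + b' + c + 1 ≤ d + b' + c := by omega
    have h2 := Nat.mul_le_mul_left e h1
    rw [Nat.mul_add, Nat.mul_one] at h2
    omega

theorem red : RedStmt := by
  intro k _ d e W h H hd
  rw [Submodule.span_le]
  rintro f ⟨a, b, c, hw, rfl⟩
  obtain ⟨d', rfl⟩ : ∃ d', d = d' + 1 := ⟨d - 1, by omega⟩
  rw [SetLike.mem_coe]
  refine red_z h H W _ (fun a b c hw hc => ?_) c a b hw
  refine red_t h H W _ c (fun a b hw hb => ?_) b a hw
  refine Submodule.subset_span ⟨a, b, c, ?_, hb, ?_, rfl⟩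
  · omega
  · simpa using hc

end Pool.Agent.FHQ.H51
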